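import Mathlib

set_option autoImplicit false
open Finset

namespace Pool.Agent.Results.MP_4ee39a_co.Counter

def Cover {V : Type} (E : Set (Finset V)) (W : Finset V) : Prop := ∀ e ∈ E, ∃ x ∈ e, x ∈ W

/-- A d-uniform family all of whose minimal vertex covers have |V|/d elements. -/
def VWC {V : Type} [Fintype V] (d : ℕ) (E : Set (Finset V)) : Prop :=
  (∀ e ∈ E, e.card = d) ∧ ∀ W, Minimal (Cover E) W → d * W.card = Fintype.card V

def jets {n : ℕ} (s : ℕ) (E : Set (Finset (Fin n))) : Set (Finset (Fin n × Fin (s + 1))) :=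
  {f | ∃ e ∈ E, ∃ i : Fin n → Fin (s + 1), ∑ x ∈ e, (i x).val ≤ s ∧ f = e.image fun x => (x, i x)}

def C : Finset (Finset (Fin 6)) := {{0, 1, 2}, {3, 1, 2}, {0, 4, 2}, {0, 1, 5}}

theorem result : ¬ ∀ (n d s : ℕ) (E : Set (Finset (Fin n))), IsAntichain (· ⊆ ·) E → VWC d E →
    VWC d (jets s E) := by
  intro h
  have a : ∀ W : Finset (Fin 6), (∀ e ∈ C, ∃ x ∈ e, x ∈ W) →
      (∀ x ∈ W, ¬ ∀ e ∈ C, ∃ y ∈ e, y ∈ W.erase x) → 3 * W.card = 6 := by decide +kernel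
  have b := (h 6 3 1 C (fun e he f hf => (show ∀ e ∈ C, ∀ f ∈ C, e ≠ f → ¬ e ⊆ f by decide) e he f hf)
    ⟨show ∀ e ∈ C, e.card = 3 by decide, fun W hW => a W hW.1 fun x hx c =>
      notMem_erase x W (hW.2 c (erase_subset _ _) hx)⟩).2
  have c : Cover (jets 1 (C : Set (Finset (Fin 6)))) {(0, 0), (1, 0), (2, 0)} := by
    rintro _ ⟨e, he, i, hi, rfl⟩
    exact (show ∀ e ∈ C, ∀ i : Fin 6 → Fin 2, ∑ x ∈ e, (i x).val ≤ 1 →
      ∃ x ∈ e.image fun x => (x, i x), x ∈ ({(0, 0), (1, 0), (2, 0)} : Finset (Fin 6 × Fin 2)) by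
      decide +kernel) e he i hi
  obtain ⟨W, h1, h2⟩ := exists_minimal_le_of_wellFoundedLT _ _ c
  have := b W h2
  have := (card_le_card h1).trans card_le_three
  simp at *
  omega

end Pool.Agent.Results.MP_4ee39a_co.Counter
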